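import Pool.Agent.H121.NK.Bimod

/-!
# Bimodule maps `Y → A ⊗ A` are the same as left linear maps `D A → G(Y)`
-/

set_option autoImplicit false
set_option linter.unusedSectionVars false
set_option linter.unusedVariables false

open scoped TensorProduct
open MulOpposite CategoryTheory CategoryTheory.Abelian
open Pool.Agent.H379.GS

namespace Pool.Agent.H121.NK

universe u w

noncomputable section

variable {K : Type u} [Field K] {A : Type u} [Ring A] [Algebra K A]

/-- the map `a ⊗ b ↦ ξ(b) a` -/
def sl (ξ : DA K A) : Ae K A →ₗ[K] A :=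
  (TensorProduct.rid K A).toLinearMap ∘ₗ
    LinearMap.lTensor A (DA.ev ξ ∘ₗ (MulOpposite.opLinearEquiv K).symm.toLinearMap)

@[simp] theorem sl_tmul (ξ : DA K A) (a : A) (b : Aᵐᵒᵖ) :
    sl ξ (a ⊗ₜ[K] b) = DA.ev ξ b.unop • a := by
  simp [sl]

theorem sl_add (ξ η : DA K A) (z : Ae K A) : sl (ξ + η) z = sl ξ z + sl η z := by
  induction z using TensorProduct.induction_on with
  | zero => simp
  | tmul a b => simp [add_smul]
  | add x y hx hy => rw [map_add, map_add, map_add, hx, hy]; abel

theorem sl_ksmul (c : K) (ξ : DA K A) (z : Ae K A) : sl (c • ξ) z = c • sl ξ z := by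
  induction z using TensorProduct.induction_on with
  | zero => simp
  | tmul a b => simp [mul_smul]
  | add x y hx hy => rw [map_add, map_add, hx, hy, smul_add]

@[simp] theorem sl_zero (z : Ae K A) : sl (0 : DA K A) z = 0 := by
  have := sl_ksmul (0 : K) (0 : DA K A) z
  simpa using this

theorem sl_lt (ξ : DA K A) (a : A) (z : Ae K A) : sl ξ (lt K A a * z) = a * sl ξ z := by
  induction z using TensorProduct.induction_on with
  | zero => simp
  | tmul x y => simp [lt]
  | add x y hx hy => rw [mul_add, map_add, map_add, hx, hy, mul_add]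

theorem sl_rt (ξ : DA K A) (a : A) (z : Ae K A) : sl ξ (rt K A a * z) = sl (a • ξ) z := by
  induction z using TensorProduct.induction_on with
  | zero => simp
  | tmul x y => simp [rt]
  | add x y hx hy => rw [mul_add, map_add, map_add, hx, hy]

section
variable {Y : Type u} [AddCommGroup Y] [Module (Ae K A) Y]

/-- scalars act on `G Y` in the expected way -/
theorem G.algebraMap_smul_ev (c : K) (g : G K A Y) (y : Lf K A Y) :
    ((algebraMap K A c) • g).ev y = c • g.ev y := by
  rw [G.smul_ev]
  have h : rt K A (algebraMap K A c) = lt K A (algebraMap K A c) := by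
    simp only [lt, rt]
    rw [Algebra.algebraMap_eq_smul_one, op_smul, TensorProduct.tmul_smul,
      TensorProduct.smul_tmul']
    rfl
  rw [h, G.ev_lt, Algebra.smul_def]
  rfl

end

variable [Module.Finite K A]

variable (K A) in
/-- a basis of `A` -/
def bs : Module.Basis (Fin (Module.finrank K A)) K A := Module.finBasis K A

variable (K A) in
/-- the dual basis -/
def ds (i : Fin (Module.finrank K A)) : DA K A := DA.mk ((bs K A).coord i)

theorem bs_sum (a : A) : ∑ i, DA.ev (ds K A i) a • bs K A i = a := (bs K A).sum_repr a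

theorem ds_sum (ξ : DA K A) : ∑ i, DA.ev ξ (bs K A i) • ds K A i = ξ := by
  refine DA.ext fun x => ?_
  have h1 : ∀ s : Finset (Fin (Module.finrank K A)),
      DA.ev (∑ i ∈ s, DA.ev ξ (bs K A i) • ds K A i) x =
        ∑ i ∈ s, DA.ev ξ (bs K A i) * DA.ev (ds K A i) x := by
    intro s
    induction s using Finset.induction_on with
    | empty => simp
    | insert a s ha ih => rw [Finset.sum_insert ha, Finset.sum_insert ha, DA.ev_add, ih,
        DA.ev_ksmul]
  rw [h1]
  conv_rhs => rw [← bs_sum (K := K) x]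
  rw [map_sum]
  refine Finset.sum_congr rfl fun i _ => ?_
  rw [map_smul, smul_eq_mul, mul_comm]

theorem sl_expand (z : Ae K A) : ∑ i, (sl (ds K A i) z) ⊗ₜ[K] op (bs K A i) = z := by
  induction z using TensorProduct.induction_on with
  | zero => simp
  | tmul a b =>
    have h1 : ∀ i, (sl (ds K A i) (a ⊗ₜ[K] b)) ⊗ₜ[K] op (bs K A i) =
        a ⊗ₜ[K] op (DA.ev (ds K A i) b.unop • bs K A i) := by
      intro i
      rw [sl_tmul, TensorProduct.smul_tmul, ← op_smul]
    rw [Finset.sum_congr rfl fun i _ => h1 i, ← TensorProduct.tmul_sum, ← Finset.op_sum, bs_sum,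
      op_unop]
  | add x y hx hy =>
    simp_rw [map_add, TensorProduct.add_tmul]
    rw [Finset.sum_add_distrib, hx, hy]

theorem sl_ext {z z' : Ae K A} (h : ∀ ξ : DA K A, sl ξ z = sl ξ z') : z = z' := by
  rw [← sl_expand z, ← sl_expand z']
  exact Finset.sum_congr rfl fun i _ => by rw [h]

section adj

variable {Y : Type u} [AddCommGroup Y] [Module (Ae K A) Y]

/-- from bimodule maps to left linear maps -/
def toG (f : Y →ₗ[Ae K A] Ae K A) : DA K A →ₗ[A] G K A Y where
  toFun ξ := G.mk K A
    { toFun := fun y => sl ξ (f y.v)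
      map_add' := fun x y => by rw [Lf.v_add, map_add, map_add]
      map_smul' := fun a y => by
        rw [Lf.v_smul, map_smul, smul_eq_mul, sl_lt]
        rfl }
  map_add' ξ η := G.ext fun y => sl_add _ _ _
  map_smul' a ξ := G.ext fun y => by
    rw [RingHom.id_apply, G.smul_ev]
    change sl (a • ξ) (f y.v) = sl ξ (f (rt K A a • y.v))
    rw [map_smul, smul_eq_mul, sl_rt]

theorem toG_ev (f : Y →ₗ[Ae K A] Ae K A) (ξ : DA K A) (y : Lf K A Y) :
    (toG f ξ).ev y = sl ξ (f y.v) := rfl

theorem h_sum (h : DA K A →ₗ[A] G K A Y) (ξ : DA K A) (y : Lf K A Y) :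
    (h ξ).ev y = ∑ i, DA.ev ξ (bs K A i) • (h (ds K A i)).ev y := by
  have h1 : ∀ s : Finset (Fin (Module.finrank K A)),
      (h (∑ i ∈ s, DA.ev ξ (bs K A i) • ds K A i)).ev y =
        ∑ i ∈ s, DA.ev ξ (bs K A i) • (h (ds K A i)).ev y := by
    intro s
    induction s using Finset.induction_on with
    | empty => simp
    | insert a s ha ih =>
      rw [Finset.sum_insert ha, Finset.sum_insert ha, map_add, G.ev_add, ih,
        ← algebraMap_smul A (DA.ev ξ (bs K A a)) (ds K A a), map_smul, G.algebraMap_smul_ev]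
  conv_lhs => rw [← ds_sum ξ]
  exact h1 _

/-- from left linear maps to bimodule maps, the underlying function -/
def ofGfun (h : DA K A →ₗ[A] G K A Y) (y : Y) : Ae K A :=
  ∑ i, (h (ds K A i)).ev (Lf.mk K A y) ⊗ₜ[K] op (bs K A i)

theorem sl_ofGfun (h : DA K A →ₗ[A] G K A Y) (ξ : DA K A) (y : Y) :
    sl ξ (ofGfun h y) = (h ξ).ev (Lf.mk K A y) := by
  rw [ofGfun, map_sum, h_sum]
  refine Finset.sum_congr rfl fun i _ => ?_
  rw [sl_tmul, unop_op]

/-- from left linear maps to bimodule maps -/
def ofG (h : DA K A →ₗ[A] G K A Y) : Y →ₗ[Ae K A] Ae K A where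
  toFun y := ofGfun h y
  map_add' x y := sl_ext fun ξ => by
    rw [map_add, sl_ofGfun, sl_ofGfun, sl_ofGfun]
    exact (h ξ).ev.map_add _ _
  map_smul' r y := by
    rw [RingHom.id_apply, smul_eq_mul]
    have hadd : ∀ x y : Y, ofGfun h (x + y) = ofGfun h x + ofGfun h y := fun x y => sl_ext fun ξ => by
      rw [map_add, sl_ofGfun, sl_ofGfun, sl_ofGfun]
      exact (h ξ).ev.map_add _ _
    induction r using TensorProduct.induction_on with
    | zero =>
      refine (congrArg (ofGfun h) (zero_smul (Ae K A) y)).trans ?_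
      refine Eq.trans ?_ (zero_mul (ofGfun h y)).symm
      refine sl_ext fun ξ => ?_
      rw [sl_ofGfun, map_zero]
      exact (h ξ).ev.map_zero
    | tmul a b =>
      refine sl_ext fun ξ => ?_
      rw [sl_ofGfun]
      have : (a ⊗ₜ[K] b : Ae K A) = lt K A a * rt K A b.unop := by
        rw [← tmul_eq, op_unop]
      rw [this, mul_smul, mul_assoc, sl_lt, sl_rt, sl_ofGfun, G.ev_lt, map_smul, G.smul_ev]
      rfl
    | add r s hr hs => rw [add_smul, hadd, hr, hs, add_mul]

theorem sl_ofG (h : DA K A →ₗ[A] G K A Y) (ξ : DA K A) (y : Y) :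
    sl ξ (ofG h y) = (h ξ).ev (Lf.mk K A y) := sl_ofGfun h ξ y

end adj

end

end Pool.Agent.H121.NK
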