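import Pool.Agent.H121.NK.ExtLem
import Pool.Agent.H379.GS.Alg

/-!
# Bimodules and the contravariant functor `G(Y) = Hom_A(Y, A)`

`Ae K A = A ⊗ Aᵐᵒᵖ` is the enveloping algebra. For an `Ae`-module `Y` let `Lf Y` be the underlying
left `A`-module and `G Y` the left `A`-module of the left linear maps `Y → A`, with the action
`(a • g) y = g (y a)`.
-/

set_option autoImplicit false
set_option linter.unusedSectionVars false
set_option linter.unusedVariables false

open scoped TensorProduct
open MulOpposite CategoryTheory CategoryTheory.Abelian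
open Pool.Agent.H379.GS

namespace Pool.Agent.H121.NK

universe u w

noncomputable section

variable (K : Type u) [Field K] (A : Type u) [Ring A] [Algebra K A]

/-- the enveloping algebra -/
abbrev Ae : Type u := A ⊗[K] Aᵐᵒᵖ

/-- the element `a ⊗ 1` -/
abbrev lt (a : A) : Ae K A := a ⊗ₜ[K] (1 : Aᵐᵒᵖ)

/-- the element `1 ⊗ a` -/
abbrev rt (a : A) : Ae K A := (1 : A) ⊗ₜ[K] op a

theorem lt_mul (a b : A) : lt K A (a * b) = lt K A a * lt K A b := by simp [lt]
theorem rt_mul (a b : A) : rt K A (a * b) = rt K A b * rt K A a := by simp [rt]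
theorem lt_rt (a b : A) : lt K A a * rt K A b = rt K A b * lt K A a := by simp [lt, rt]
theorem tmul_eq (a b : A) : (a ⊗ₜ[K] op b : Ae K A) = lt K A a * rt K A b := by simp [lt, rt]

section bimod

/-- `Y` as a left module -/
def Lf (_K _A : Type u) (Y : Type u) : Type u := Y

variable (Y : Type u) [AddCommGroup Y] [Module (Ae K A) Y]

instance : AddCommGroup (Lf K A Y) := inferInstanceAs (AddCommGroup Y)

instance : Module A (Lf K A Y) :=
  Module.compHom Y (Algebra.TensorProduct.includeLeftRingHom : A →+* Ae K A)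

variable {Y}

/-- the element of `Lf Y` -/
def Lf.mk (y : Y) : Lf K A Y := y

variable {K A} in
/-- the underlying element -/
def Lf.v (y : Lf K A Y) : Y := y

theorem Lf.v_smul (a : A) (y : Lf K A Y) : (a • y).v = lt K A a • y.v := rfl
@[simp] theorem Lf.v_mk (y : Y) : (Lf.mk K A y).v = y := rfl
@[simp] theorem Lf.v_add (x y : Lf K A Y) : (x + y).v = x.v + y.v := rfl
@[simp] theorem Lf.v_zero : (0 : Lf K A Y).v = 0 := rfl
@[simp] theorem Lf.mk_v (y : Lf K A Y) : Lf.mk K A y.v = y := rfl

/-- right multiplication, a left linear map -/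
def rmul (a : A) : Lf K A Y →ₗ[A] Lf K A Y where
  toFun y := Lf.mk K A (rt K A a • y.v)
  map_add' x y := smul_add (rt K A a) x.v y.v
  map_smul' b y := by
    change rt K A a • (lt K A b • y.v) = lt K A b • (rt K A a • y.v)
    rw [← mul_smul, ← mul_smul, lt_rt]

theorem rmul_apply (a : A) (y : Lf K A Y) : rmul K A a y = Lf.mk K A (rt K A a • y.v) := rfl

variable (Y)

/-- the left linear maps `Y → A` -/
def G : Type u := Lf K A Y →ₗ[A] A

instance : AddCommGroup (G K A Y) := inferInstanceAs (AddCommGroup (Lf K A Y →ₗ[A] A))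

variable {Y}

variable {K A} in
/-- the value of an element of `G Y` -/
def G.ev (g : G K A Y) : Lf K A Y →ₗ[A] A := g

/-- an element of `G Y` -/
def G.mk (g : Lf K A Y →ₗ[A] A) : G K A Y := g

variable {K A} in
theorem G.ext {g h : G K A Y} (H : ∀ y, g.ev y = h.ev y) : g = h := LinearMap.ext H

@[simp] theorem G.ev_mk (g : Lf K A Y →ₗ[A] A) : (G.mk K A g).ev = g := rfl
@[simp] theorem G.ev_add (g h : G K A Y) (y : Lf K A Y) : (g + h).ev y = g.ev y + h.ev y := rfl
@[simp] theorem G.ev_zero (y : Lf K A Y) : (0 : G K A Y).ev y = 0 := rfl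

instance : Module A (G K A Y) where
  smul a g := G.mk K A (g.ev ∘ₗ rmul K A a)
  one_smul g := G.ext fun y => by
    change g.ev (rmul K A 1 y) = g.ev y
    congr 1
    change rt K A 1 • y.v = y.v
    have : rt K A 1 = 1 := rfl
    rw [this, one_smul]
  mul_smul a b g := G.ext fun y => by
    change g.ev (rmul K A (a * b) y) = g.ev (rmul K A b (rmul K A a y))
    congr 1
    change rt K A (a * b) • y.v = rt K A b • (rt K A a • y.v)
    rw [rt_mul, mul_smul]
  smul_zero a := rfl
  smul_add a f g := rfl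
  add_smul a b g := G.ext fun y => by
    change g.ev (rmul K A (a + b) y) = g.ev (rmul K A a y) + g.ev (rmul K A b y)
    rw [← map_add]
    congr 1
    change rt K A (a + b) • y.v = rt K A a • y.v + rt K A b • y.v
    rw [← add_smul]
    congr 1
    simp [rt, TensorProduct.tmul_add]
  zero_smul g := G.ext fun y => by
    change g.ev (rmul K A 0 y) = 0
    have : rmul K A 0 y = 0 := by
      change rt K A 0 • y.v = 0
      have : rt K A 0 = 0 := by simp [rt]
      rw [this]
      exact zero_smul (Ae K A) (y.v : Y)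
    rw [this, map_zero]

theorem G.smul_ev (a : A) (g : G K A Y) (y : Lf K A Y) :
    (a • g).ev y = g.ev (Lf.mk K A (rt K A a • y.v)) := rfl

theorem G.ev_lt (g : G K A Y) (a : A) (y : Y) :
    g.ev (Lf.mk K A (lt K A a • y)) = a * g.ev (Lf.mk K A y) :=
  g.ev.map_smul a (Lf.mk K A y)

end bimod

section maps

variable {K A}
variable {Y Z W : Type u} [AddCommGroup Y] [Module (Ae K A) Y] [AddCommGroup Z] [Module (Ae K A) Z]
  [AddCommGroup W] [Module (Ae K A) W]

/-- a bimodule map as a left linear map -/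
def Lf.map (f : Y →ₗ[Ae K A] Z) : Lf K A Y →ₗ[A] Lf K A Z where
  toFun y := Lf.mk K A (f y.v)
  map_add' x y := f.map_add _ _
  map_smul' a y := f.map_smul _ _

@[simp] theorem Lf.map_apply (f : Y →ₗ[Ae K A] Z) (y : Lf K A Y) :
    Lf.map f y = Lf.mk K A (f y.v) := rfl

/-- the functor `G` on maps -/
def G.map (f : Y →ₗ[Ae K A] Z) : G K A Z →ₗ[A] G K A Y where
  toFun g := G.mk K A (g.ev ∘ₗ Lf.map f)
  map_add' g h := rfl
  map_smul' a g := G.ext fun y => by
    change g.ev (rt K A a • f y.v : Z) = g.ev (f (rt K A a • y.v) : Z)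
    rw [map_smul]

theorem G.map_ev (f : Y →ₗ[Ae K A] Z) (g : G K A Z) (y : Lf K A Y) :
    (G.map f g).ev y = g.ev (Lf.mk K A (f y.v)) := rfl

end maps

end

end Pool.Agent.H121.NK
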