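import Pool.Agent.H121.NK.Adj

/-!
# Exactness properties of the functor `G`
-/

set_option autoImplicit false
set_option linter.unusedSectionVars false
set_option linter.unusedVariables false
set_option linter.unusedSimpArgs false

open scoped TensorProduct
open MulOpposite CategoryTheory CategoryTheory.Abelian
open Pool.Agent.H379.GS

namespace Pool.Agent.H121.NK

universe u w

noncomputable section

variable {K : Type u} [Field K] {A : Type u} [Ring A] [Algebra K A]

/-- a free bimodule, as a left module, with the structure of a free module -/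
def lfEquiv (ι : Type u) : Lf K A (ι →₀ Ae K A) ≃ₗ[A] (ι →₀ (A ⊗[K] Aᵐᵒᵖ)) where
  toFun y := y.v
  invFun y := Lf.mk K A y
  map_add' x y := rfl
  map_smul' a y := by
    rw [Lf.v_smul]
    refine Finsupp.ext fun i => ?_
    change lt K A a * y.v i = a • y.v i
    generalize y.v i = z
    induction z using TensorProduct.induction_on with
    | zero => simp
    | tmul x y => simp [lt, TensorProduct.smul_tmul']
    | add x y hx hy => rw [mul_add, hx, hy, smul_add]
  left_inv y := rfl
  right_inv y := rfl

theorem lf_free (ι : Type u) : Module.Projective A (Lf K A (ι →₀ Ae K A)) := by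
  have h1 : Module.Free A (A ⊗[K] Aᵐᵒᵖ) :=
    Module.Free.of_basis (Algebra.TensorProduct.basis A (Module.Free.chooseBasis K Aᵐᵒᵖ))
  have h2 : Module.Projective A (ι →₀ (A ⊗[K] Aᵐᵒᵖ)) := inferInstance
  exact Module.Projective.of_equiv (lfEquiv ι).symm

section kernel

variable {P Y : Type u} [AddCommGroup P] [Module (Ae K A) P] [AddCommGroup Y] [Module (Ae K A) Y]
variable (p : P →ₗ[Ae K A] Y) (s : Lf K A Y →ₗ[A] Lf K A P) (hs : ∀ y, p (s y).v = y.v)

include hs in
theorem ker_aux (x : Lf K A P) : (x - s (Lf.mk K A (p x.v))).v ∈ LinearMap.ker p := by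
  rw [LinearMap.mem_ker]
  have h1 : (x - s (Lf.mk K A (p x.v))).v = x.v - (s (Lf.mk K A (p x.v))).v := rfl
  rw [h1, map_sub, hs, Lf.v_mk, sub_self]

/-- the retraction onto the kernel -/
def ret : Lf K A P →ₗ[A] Lf K A (LinearMap.ker p) where
  toFun x := Lf.mk K A ⟨_, ker_aux p s hs x⟩
  map_add' x y := by
    refine Subtype.ext ?_
    change (x + y - s (Lf.mk K A (p (x + y).v))).v =
      (x - s (Lf.mk K A (p x.v))).v + (y - s (Lf.mk K A (p y.v))).v
    have h1 : Lf.mk K A (p (x + y).v) = Lf.mk K A (p x.v) + Lf.mk K A (p y.v) := p.map_add _ _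
    rw [h1, map_add]
    change (x + y - (_ + _) : Lf K A P) = (x - _) + (y - _)
    abel
  map_smul' a x := by
    refine Subtype.ext ?_
    change (a • x - s (Lf.mk K A (p (a • x).v))).v = lt K A a • (x - s (Lf.mk K A (p x.v))).v
    have h1 : Lf.mk K A (p (a • x).v) = a • Lf.mk K A (p x.v) := p.map_smul _ _
    rw [h1, map_smul]
    change (a • x - a • _ : Lf K A P) = a • (x - _)
    rw [smul_sub]

theorem ret_sub (x : LinearMap.ker p) : ret p s hs (Lf.mk K A (x : P)) = Lf.mk K A x := by
  refine Subtype.ext ?_
  change (Lf.mk K A (x : P) - s (Lf.mk K A (p (x : P)))).v = (x : P)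
  have h1 : p (x : P) = 0 := x.2
  have h2 : (Lf.mk K A (0 : Y)) = 0 := rfl
  rw [h1, h2, map_zero, sub_zero]
  rfl

include s hs in
theorem ker_projective [Module.Projective A (Lf K A P)] :
    Module.Projective A (Lf K A (LinearMap.ker p)) := by
  refine Module.Projective.of_split (Lf.map (LinearMap.ker p).subtype) (ret p s hs) ?_
  refine LinearMap.ext fun x => ?_
  exact ret_sub p s hs x.v

/-- the short complex `G Y → G P → G (ker p)` -/
def gComplex : ShortComplex (ModuleCat.{u} A) where
  X₁ := ModuleCat.of A (G K A Y)
  X₂ := ModuleCat.of A (G K A P)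
  X₃ := ModuleCat.of A (G K A (LinearMap.ker p))
  f := ModuleCat.ofHom (G.map p)
  g := ModuleCat.ofHom (G.map (LinearMap.ker p).subtype)
  zero := by
    refine ModuleCat.hom_ext (LinearMap.ext fun g => G.ext fun y => ?_)
    change g.ev (Lf.mk K A (p (y.v : P))) = 0
    have h1 : p (y.v : P) = 0 := y.v.2
    rw [h1]
    exact g.ev.map_zero

include hs in
theorem gComplex_shortExact : (gComplex p).ShortExact where
  exact := (ShortComplex.ShortExact.moduleCat_exact_iff_function_exact _).mpr (by
    intro g
    constructor
    · intro hg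
      refine ⟨G.mk K A (G.ev g ∘ₗ s), G.ext fun x => ?_⟩
      change (G.ev g) (s (Lf.mk K A (p x.v))) = (G.ev g) x
      have h1 := congrArg (fun e : G K A (LinearMap.ker p) => e.ev (ret p s hs x)) hg
      have h2 : (G.ev g) (x - s (Lf.mk K A (p x.v))) = 0 := h1
      rw [map_sub, sub_eq_zero] at h2
      exact h2.symm
    · rintro ⟨g, rfl⟩
      exact congrArg (fun e => e.hom g) (gComplex p).zero)
  mono_f := (ModuleCat.mono_iff_injective _).mpr (by
    intro g g' h
    refine G.ext fun y => ?_
    have h1 := congrArg (fun e : G K A P => e.ev (s y)) h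
    change (G.ev g) (Lf.mk K A (p (s y).v)) = (G.ev g') (Lf.mk K A (p (s y).v)) at h1
    rw [hs] at h1
    exact h1)
  epi_g := (ModuleCat.epi_iff_surjective _).mpr (by
    intro g
    refine ⟨G.mk K A (G.ev g ∘ₗ ret p s hs), G.ext fun x => ?_⟩
    change (G.ev g) (ret p s hs (Lf.mk K A (x.v : P))) = (G.ev g) x
    rw [ret_sub]
    rfl)

end kernel

section injective

variable {Z : Type u} [AddCommGroup Z] [Module A Z] [Module K Z] [IsScalarTower K A Z]

/-- the map `a ⊗ b ↦ a k(b z)` -/
def mu (k : Z →ₗ[K] A) (z : Z) : Ae K A →ₗ[K] A :=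
  TensorProduct.lift (LinearMap.mk₂ K (fun (a : A) (b : Aᵐᵒᵖ) => a * k (b.unop • z))
    (fun a a' b => add_mul _ _ _)
    (fun c a b => smul_mul_assoc _ _ _)
    (fun a b b' => by rw [MulOpposite.unop_add, add_smul, map_add, mul_add])
    (fun c a b => by rw [MulOpposite.unop_smul, smul_assoc, map_smul, mul_smul_comm]))

@[simp] theorem mu_tmul (k : Z →ₗ[K] A) (z : Z) (a : A) (b : Aᵐᵒᵖ) :
    mu k z (a ⊗ₜ[K] b) = a * k (b.unop • z) := rfl

theorem mu_lt (k : Z →ₗ[K] A) (z : Z) (a : A) (w : Ae K A) :
    mu k z (lt K A a * w) = a * mu k z w := by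
  induction w using TensorProduct.induction_on with
  | zero => simp
  | tmul x y => simp [lt, mul_assoc]
  | add x y hx hy => rw [mul_add, map_add, map_add, hx, hy, mul_add]

theorem mu_rt (k : Z →ₗ[K] A) (z : Z) (a : A) (w : Ae K A) :
    mu k z (rt K A a * w) = mu k (a • z) w := by
  induction w using TensorProduct.induction_on with
  | zero => simp
  | tmul x y => simp [rt, mul_smul]
  | add x y hx hy => rw [mul_add, map_add, map_add, hx, hy]

theorem mu_add (k : Z →ₗ[K] A) (z z' : Z) (w : Ae K A) :
    mu k (z + z') w = mu k z w + mu k z' w := by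
  induction w using TensorProduct.induction_on with
  | zero => simp
  | tmul x y => simp [mul_add]
  | add x y hx hy => rw [map_add, map_add, map_add, hx, hy]; abel

/-- the map into `G` of a free bimodule defined by a family of `K`-linear maps -/
def mkH {ι : Type u} (k : ι → Z →ₗ[K] A) : Z →ₗ[A] G K A (ι →₀ Ae K A) where
  toFun z := G.mk K A
    { toFun := fun y => Finsupp.lsum K (fun i => mu (k i) z) y.v
      map_add' := fun x y => by rw [Lf.v_add, map_add]
      map_smul' := fun a y => by
        rw [Lf.v_smul]
        generalize y.v = y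
        induction y using Finsupp.induction_linear with
        | zero => simp
        | add x y hx hy => rw [smul_add, map_add, map_add, hx, hy, smul_add]
        | single i w =>
          rw [Finsupp.smul_single, Finsupp.lsum_single, Finsupp.lsum_single]
          exact mu_lt (k i) z a w }
  map_add' z z' := G.ext fun y => by
    change Finsupp.lsum K (fun i => mu (k i) (z + z')) y.v =
      Finsupp.lsum K (fun i => mu (k i) z) y.v + Finsupp.lsum K (fun i => mu (k i) z') y.v
    generalize y.v = y
    induction y using Finsupp.induction_linear with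
    | zero => simp
    | add x y hx hy => rw [map_add, map_add, map_add, hx, hy]; abel
    | single i w => simp [mu_add]
  map_smul' a z := G.ext fun y => by
    rw [RingHom.id_apply, G.smul_ev]
    change Finsupp.lsum K (fun i => mu (k i) (a • z)) y.v =
      Finsupp.lsum K (fun i => mu (k i) z) (rt K A a • y.v)
    generalize y.v = y
    induction y using Finsupp.induction_linear with
    | zero => simp
    | add x y hx hy => rw [map_add, smul_add, map_add, hx, hy]
    | single i w =>
      rw [Finsupp.smul_single, Finsupp.lsum_single, Finsupp.lsum_single]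
      exact (mu_rt (k i) z a w).symm

theorem mkH_ev {ι : Type u} (k : ι → Z →ₗ[K] A) (z : Z) (i : ι) (w : Ae K A) :
    (mkH k z).ev (Lf.mk K A (Finsupp.single i w)) = mu (k i) z w := by
  change Finsupp.lsum K (fun i => mu (k i) z) (Finsupp.single i w) = _
  simp

/-- elements of `G` of a free bimodule are determined by few values -/
theorem G.ext_free {ι : Type u} {g g' : G K A (ι →₀ Ae K A)}
    (h : ∀ (i : ι) (b : A), g.ev (Lf.mk K A (Finsupp.single i (rt K A b))) =
      g'.ev (Lf.mk K A (Finsupp.single i (rt K A b)))) : g = g' := by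
  refine G.ext fun y => ?_
  have key : ∀ y : ι →₀ Ae K A, g.ev (Lf.mk K A y) = g'.ev (Lf.mk K A y) := by
    intro y
    induction y using Finsupp.induction_linear with
    | zero => exact g.ev.map_zero.trans g'.ev.map_zero.symm
    | add x y hx hy =>
      refine (g.ev.map_add (Lf.mk K A x) (Lf.mk K A y)).trans ?_
      rw [hx, hy]
      exact (g'.ev.map_add (Lf.mk K A x) (Lf.mk K A y)).symm
    | single i w =>
      induction w using TensorProduct.induction_on with
      | zero =>
        rw [Finsupp.single_zero]
        exact g.ev.map_zero.trans g'.ev.map_zero.symm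
      | tmul a b =>
        have h1 : (Finsupp.single i (a ⊗ₜ[K] b : Ae K A)) =
            lt K A a • Finsupp.single i (rt K A b.unop) := by
          simp [lt, rt]
        rw [h1, G.ev_lt, G.ev_lt, h]
      | add x y hx hy =>
        have h2 : ∀ e : G K A (ι →₀ Ae K A), e.ev (Lf.mk K A (Finsupp.single i (x + y))) =
            e.ev (Lf.mk K A (Finsupp.single i x)) + e.ev (Lf.mk K A (Finsupp.single i y)) := by
          intro e
          rw [Finsupp.single_add]
          exact e.ev.map_add (Lf.mk K A (Finsupp.single i x)) (Lf.mk K A (Finsupp.single i y))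
        rw [h2 g, h2 g', hx, hy]
  exact key y.v

end injective

theorem g_free_injective (ι : Type u) : Module.Injective A (G K A (ι →₀ Ae K A)) where
  out X Z _ _ _ _ f hf g := by
    let _ : Module K X := Module.compHom X (algebraMap K A)
    let _ : Module K Z := Module.compHom Z (algebraMap K A)
    have : IsScalarTower K A X := ⟨fun c a x => by
      change (c • a) • x = algebraMap K A c • a • x
      rw [← mul_smul, Algebra.smul_def]⟩
    have : IsScalarTower K A Z := ⟨fun c a x => by
      change (c • a) • x = algebraMap K A c • a • x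
      rw [← mul_smul, Algebra.smul_def]⟩
    obtain ⟨r, hr⟩ := LinearMap.exists_leftInverse_of_injective (f.restrictScalars K)
      (LinearMap.ker_eq_bot.2 hf)
    let k : ι → X →ₗ[K] A := fun i =>
      { toFun := fun x => (g x).ev (Lf.mk K A (Finsupp.single i 1))
        map_add' := fun x y => by rw [map_add]; rfl
        map_smul' := fun c x => by
          have : g (c • x) = algebraMap K A c • g x := g.map_smul _ _
          rw [this, G.algebraMap_smul_ev]
          rfl }
    refine ⟨mkH fun i => k i ∘ₗ r, fun x => G.ext_free fun i b => ?_⟩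
    rw [mkH_ev]
    have h1 : mu (k i ∘ₗ r) (f x) (rt K A b) = k i (b • x) := by
      rw [rt, mu_tmul, one_mul, unop_op]
      have h2 : b • f x = f (b • x) := (f.map_smul _ _).symm
      rw [h2]
      have h3 := LinearMap.congr_fun hr (b • x)
      change r (f (b • x)) = b • x at h3
      rw [LinearMap.comp_apply, h3]
    rw [h1]
    change (g (b • x)).ev (Lf.mk K A (Finsupp.single i 1)) = _
    rw [map_smul, G.smul_ev, Lf.v_mk, Finsupp.smul_single, smul_eq_mul, mul_one]

end

end Pool.Agent.H121.NK
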