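import Mathlib

/-!
# Dimension shifting lemmas for `Ext`
-/

set_option autoImplicit false

namespace Pool.Agent.H121.NK

open CategoryTheory CategoryTheory.Abelian Limits

universe w w' v u

variable {C : Type u} [Category.{v} C] [Abelian C] [HasExt.{w} C]
variable {S : ShortComplex C} (hS : S.ShortExact)

include hS

/-- if the middle term is projective and all maps from the first term extend, `Ext^1` of the last
term vanishes -/
theorem ext_one_of_extend (hP : Projective S.X₂) (F : C)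
    (h : ∀ f : S.X₁ ⟶ F, ∃ g : S.X₂ ⟶ F, S.f ≫ g = f) : Subsingleton (Ext.{w} S.X₃ F 1) := by
  refine subsingleton_of_forall_eq 0 fun x => ?_
  obtain ⟨y, hy⟩ := Ext.contravariant_sequence_exact₃ hS F x (Ext.eq_zero_of_projective _)
    (add_comm 1 0)
  obtain ⟨f, rfl⟩ := (Ext.mk₀_bijective S.X₁ F).2 y
  obtain ⟨g, rfl⟩ := h f
  rw [← hy, ← Ext.mk₀_comp_mk₀]
  exact hS.extClass_comp_assoc (Ext.mk₀ g)

/-- contravariant dimension shift -/
theorem ext_succ_of_projective (hP : Projective S.X₂) (F : C) (n : ℕ)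
    (h : Subsingleton (Ext.{w} S.X₁ F (n + 1))) : Subsingleton (Ext.{w} S.X₃ F (n + 2)) := by
  refine subsingleton_of_forall_eq 0 fun x => ?_
  obtain ⟨y, hy⟩ := Ext.contravariant_sequence_exact₃ hS F x (Ext.eq_zero_of_projective _)
    (show 1 + (n + 1) = n + 2 by omega)
  rw [← hy, Subsingleton.elim y 0, Ext.comp_zero]

/-- if `Ext^1(X, S.X₁) = 0` then maps to the last term lift -/
theorem lift_of_ext_one (X : C) (h : Subsingleton (Ext.{w} X S.X₁ 1)) (f : X ⟶ S.X₃) :
    ∃ g : X ⟶ S.X₂, g ≫ S.g = f := by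
  obtain ⟨y, hy⟩ := Ext.covariant_sequence_exact₃ X hS (Ext.mk₀ f) (zero_add 1)
    (Subsingleton.elim _ _)
  obtain ⟨g, rfl⟩ := (Ext.mk₀_bijective X S.X₂).2 y
  refine ⟨g, (Ext.mk₀_bijective X S.X₃).1 ?_⟩
  rw [← hy, Ext.mk₀_comp_mk₀]

/-- covariant dimension shift -/
theorem ext_of_injective (hI : Injective S.X₂) (X : C) (n : ℕ)
    (h : Subsingleton (Ext.{w} X S.X₁ (n + 2))) : Subsingleton (Ext.{w} X S.X₃ (n + 1)) := by
  refine subsingleton_of_forall_eq 0 fun x => ?_
  obtain ⟨y, hy⟩ := Ext.covariant_sequence_exact₃ X hS x (show n + 1 + 1 = n + 2 by omega)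
    (Subsingleton.elim _ _)
  rw [← hy, Ext.eq_zero_of_injective y, Ext.zero_comp]

omit hS

/-- vanishing of `Ext` does not depend on the universe -/
theorem ext_chg [HasExt.{w'} C] (X Y : C) (n : ℕ) (h : Subsingleton (Ext.{w} X Y n)) :
    Subsingleton (Ext.{w'} X Y n) :=
  (Ext.chgUniv.{w', w} (X := X) (Y := Y) (n := n)).symm.subsingleton

/-- isomorphic second arguments -/
theorem ext_iso_right {X F F' : C} (e : F ≅ F') (n : ℕ) (h : Subsingleton (Ext.{w} X F n)) :
    Subsingleton (Ext.{w} X F' n) := by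
  refine subsingleton_of_forall_eq 0 fun x => ?_
  have h1 : (x.comp (Ext.mk₀ e.inv) (add_zero n)).comp (Ext.mk₀ e.hom) (add_zero n) = x := by
    rw [Ext.comp_assoc_of_third_deg_zero, Ext.mk₀_comp_mk₀, e.inv_hom_id, Ext.comp_mk₀_id]
  rw [← h1, Subsingleton.elim (x.comp (Ext.mk₀ e.inv) (add_zero n)) 0, Ext.zero_comp]

/-- isomorphic first arguments -/
theorem ext_iso_left {X X' F : C} (e : X ≅ X') (n : ℕ) (h : Subsingleton (Ext.{w} X F n)) :
    Subsingleton (Ext.{w} X' F n) := by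
  refine subsingleton_of_forall_eq 0 fun x => ?_
  have h1 : (Ext.mk₀ e.inv).comp ((Ext.mk₀ e.hom).comp x (zero_add n)) (zero_add n) = x := by
    rw [← Ext.comp_assoc_of_second_deg_zero, Ext.mk₀_comp_mk₀, e.inv_hom_id, Ext.mk₀_id_comp]
  rw [← h1, Subsingleton.elim ((Ext.mk₀ e.hom).comp x (zero_add n)) 0, Ext.comp_zero]

end Pool.Agent.H121.NK
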