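import Pool.Agent.H121.NK.Main2
import Pool.Agent.H190.NK.Main
import Pool.Agent.H379.GS.Ring

/-!
# The frozen statement on total reflexivity (project NK of helper379)
-/

set_option autoImplicit false
set_option linter.unusedSectionVars false
set_option linter.unusedVariables false
set_option linter.unusedSimpArgs false

open scoped TensorProduct
open MulOpposite CategoryTheory CategoryTheory.Abelian
open Pool.Agent.H379.GS Pool.Agent.H190.NK

namespace Pool.Agent.H121.NK

/-! The next three declarations are due to helper190 (`Pool.Agent.H190.NK.Final`). -/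

section notinj

variable {T : Type} [Ring T]
variable {M : Type} [AddCommGroup M] [Module T M] {X : Type} [AddCommGroup X] [Module T X]

theorem endo_hom' {p₁ : M →ₗ[T] T} {e : M} (he : p₁ e = 1)
    (θ : M →ₗ[Module.End T M] Module.End T M) (z x : M) :
    θ z x = p₁ (θ e x) • z := by
  have h1 : z = (p₁.smulRight z : Module.End T M) • e := by
    change z = p₁ e • z
    rw [he, one_smul]
  have h2 : θ z = (p₁.smulRight z : Module.End T M) * θ e := by
    conv_lhs => rw [h1]
    rw [map_smul, smul_eq_mul]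
  rw [h2]
  rfl

/-- if `End_T M` is self-injective, then the direct summand `X` of the generator `M` is
projective -/
theorem projective_of_injective {p₁ : M →ₗ[T] T} {e : M} (he : p₁ e = 1) (ι : X →ₗ[T] M)
    (σ : M →ₗ[T] X) (hισ : ∀ x, σ (ι x) = x) [Module.Finite T X]
    (hA : Module.Injective (Module.End T M) (Module.End T M)) : Module.Projective T X := by
  obtain ⟨n, π, hπ⟩ := Module.Finite.exists_fin' T X
  let F : (X →ₗ[T] M) →ₗ[Module.End T M] (Fin n → M) :=
    { toFun := fun g i => g (π (Pi.single i 1))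
      map_add' := fun g g' => rfl
      map_smul' := fun γ g => rfl }
  have hF : Function.Injective F := by
    intro g g' h
    have h1 : g ∘ₗ π = g' ∘ₗ π := by
      refine LinearMap.pi_ext' fun i => ?_
      ext
      exact congrFun h i
    ext x
    obtain ⟨v, rfl⟩ := hπ x
    exact LinearMap.congr_fun h1 v
  let G₀ : (X →ₗ[T] M) →ₗ[Module.End T M] Module.End T M :=
    { toFun := fun g => g ∘ₗ σ
      map_add' := fun g g' => rfl
      map_smul' := fun γ g => rfl }
  obtain ⟨E, hE⟩ := hA.out F hF G₀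
  let θ : Fin n → M →ₗ[Module.End T M] Module.End T M :=
    fun i => E ∘ₗ LinearMap.single (Module.End T M) (fun _ => M) i
  let h : Fin n → M →ₗ[T] T := fun i => p₁ ∘ₗ (θ i e : M →ₗ[T] M)
  have key : ∀ (v : Fin n → M) (x : M), E v x = ∑ i, h i x • v i := by
    intro v x
    conv_lhs => rw [← Finset.univ_sum_single v]
    rw [map_sum, LinearMap.sum_apply]
    refine Finset.sum_congr rfl fun i _ => ?_
    exact endo_hom' he (θ i) (v i) x
  have hι : Function.Injective ι := fun x x' hx => by rw [← hισ x, hx, hισ]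
  refine Module.Projective.of_split (M := Fin n → T) (LinearMap.pi fun i => h i ∘ₗ ι) π ?_
  refine LinearMap.ext fun x => hι ?_
  have h1 : E (F ι) (ι x) = ι x := by
    rw [hE]
    change ι (σ (ι x)) = ι x
    rw [hισ]
  rw [key] at h1
  rw [LinearMap.id_apply]
  refine Eq.trans ?_ h1
  rw [LinearMap.comp_apply]
  have h2 : (LinearMap.pi fun i => h i ∘ₗ ι) x =
      ∑ i, h i (ι x) • (Pi.single i 1 : Fin n → T) := by
    ext j
    rw [Finset.sum_apply, Finset.sum_eq_single j]
    · simp
    · intro i _ hi; simp [hi.symm]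
    · simp
  rw [h2, map_sum, map_sum]
  refine Finset.sum_congr rfl fun i _ => ?_
  rw [map_smul, map_smul]
  rfl

end notinj

theorem subsingleton_of_iso {C : Type 1} [Category.{0} C] [Abelian C] [HasExt.{0} C] {X X' Y : C}
    (e : X ≅ X') (n : ℕ) (h : Subsingleton (Ext.{0} X Y n)) : Subsingleton (Ext.{0} X' Y n) := by
  refine subsingleton_of_forall_eq 0 fun x => ?_
  have h1 : x = (Ext.mk₀ e.inv).comp ((Ext.mk₀ e.hom).comp x (zero_add n)) (zero_add n) := by
    rw [Ext.mk₀_comp_mk₀_assoc]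
    simp
  rw [h1, Subsingleton.elim ((Ext.mk₀ e.hom).comp x (zero_add n)) 0, Ext.comp_zero]

/-- the dual of the endomorphism algebra is `G M` -/
def isoDA (K T M : Type) [Field K] [Ring T] [Algebra K T] [AddCommGroup M] [Module T M]
    [Module K M] [IsScalarTower K T M] [Module.Finite K M] :
    GG K M (T := T) M ≃ₗ[Module.End T M] DA K (Module.End T M) where
  toFun ξ := DA.mk ξ.ev
  invFun f := GG.mk (DA.ev f)
  map_add' ξ ξ' := rfl
  map_smul' γ ξ := rfl
  left_inv ξ := rfl
  right_inv f := rfl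

noncomputable section

variable {K : Type} [Field K] {T : Type} [Ring T] [Algebra K T] (y : Sy K T)
variable {X : Type} [AddCommGroup X] [Module T X] [Module K X] [IsScalarTower K T X]
  [Module.Finite K X] [Module.Finite K T]

/-- the functional `γ ↦ λ (p₁ (γ m))` -/
def fun1 (m : T × X) : DA K (Module.End T (T × X)) := DA.mk
  { toFun := fun γ => y.lam (γ m).1
    map_add' := fun γ γ' => by rw [LinearMap.add_apply, Prod.fst_add, map_add]
    map_smul' := fun c γ => by
      rw [LinearMap.smul_apply, Prod.smul_fst, map_smul, RingHom.id_apply] }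

theorem fun1_ev (m : T × X) (γ : Module.End T (T × X)) :
    DA.ev (fun1 (K := K) y m) γ = y.lam (γ m).1 := rfl

/-- the canonical map `D A → A` for `A = End_T (T × X)` -/
def nuMap : DA K (Module.End T (T × X)) →ₗ[Module.End T (T × X)] Module.End T (T × X) :=
  (EE y (LinearMap.id : (T × X) →ₗ[T] (T × X))) ∘ₗ (isoDA K T (T × X)).symm.toLinearMap

theorem nu_spec (ξ : DA K (Module.End T (T × X))) (x : T × X) (s : (T × X) →ₗ[T] T) :
    y.lam (s (nuMap y ξ x)) = DA.ev ξ (s.smulRight x) := by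
  unfold nuMap
  rw [LinearMap.comp_apply, EE_spec]
  rfl

theorem nu_fun1 (m x : T × X) : nuMap y (fun1 y m) x = x.1 • m := by
  refine y.sep fun s => ?_
  rw [nu_spec, fun1_ev, LinearMap.smulRight_apply, Prod.smul_fst, smul_eq_mul, y.lam_comm,
    map_smul, smul_eq_mul]

/-- the structure `Nu` for `End_T (T × X)` -/
def nuEnd : Nu K (Module.End T (T × X)) where
  ν := nuMap y
  right b ξ := by
    refine LinearMap.ext fun x => y.sep fun s => ?_
    rw [Module.End.mul_apply, nu_spec, nu_spec, DA.ev_op_smul]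
    congr 1
    ext z <;> simp
  gen h := by
    have he : (LinearMap.fst T T X) ((1, 0) : T × X) = 1 := rfl
    have : Module.Finite K (T × X) := inferInstance
    obtain ⟨n, j, hj⟩ := exists_embed y (N := T × X)
    let q := (LinearMap.range j).mkQ
    have h0 : ∀ a, q (j a) = 0 := fun a => by
      rw [Submodule.mkQ_apply, Submodule.Quotient.mk_eq_zero]; exact ⟨a, rfl⟩
    have hex : ∀ b, q b = 0 → ∃ a, j a = b := fun b hb => by
      rw [Submodule.mkQ_apply, Submodule.Quotient.mk_eq_zero] at hb; exact hb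
    obtain ⟨a, ha⟩ := EE_surj' y he hj h0 hex (h ∘ₗ (isoDA K T (T × X)).toLinearMap)
    refine ⟨a, fun ξ => ?_⟩
    refine LinearMap.ext fun x => y.sep fun s => ?_
    have h1 : h ξ = EE y a ((isoDA K T (T × X)).symm ξ) := by
      rw [ha, LinearMap.comp_apply]
      rfl
    rw [h1, EE_spec, Module.End.mul_apply, nu_spec]
    rfl
  left_zero a ha := by
    refine LinearMap.ext fun m => ?_
    have h1 := LinearMap.congr_fun (ha (fun1 y m)) ((1, 0) : T × X)
    rw [Module.End.mul_apply, nu_fun1, one_smul] at h1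
    exact h1
  right_zero a ha := by
    refine LinearMap.ext fun x => ?_
    have h2 : ((LinearMap.fst T T X).smulRight (a x) : Module.End T (T × X)) = 0 := by
      rw [← Module.forall_dual_apply_eq_zero_iff K]
      intro l
      have h3 := nu_spec y (DA.mk l) (a x) (LinearMap.fst T T X)
      have h4 := LinearMap.congr_fun (ha (DA.mk l)) x
      rw [Module.End.mul_apply] at h4
      rw [h4] at h3
      simpa using h3.symm
    have h5 := LinearMap.congr_fun h2 ((1, 0) : T × X)
    simpa using h5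

/-- SUBTASK P2-S01612 (the statement is the frozen one; hypothesis: a symmetric algebra `T` with a
non-projective module `X` without self-extensions). -/
theorem s01612_of (K : Type) [Field K] (T : Type) [Ring T] [Algebra K T]
    (hT : IsSymmetricAlg K T) (X : Type) [AddCommGroup X] [Module T X] [Module.Finite T X]
    (hX : ¬ Module.Projective T X)
    (hE : ∀ i : ℕ, 1 ≤ i → Subsingleton (Ext (ModuleCat.of T X) (ModuleCat.of T X) i)) :
    ¬ (∀ (k : Type) [Field k] (A : Type) [Ring A] [Algebra k A] [FiniteDimensional k A]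
    [Module (A ⊗[k] Aᵐᵒᵖ) A],
    (∀ (a : A) (b : Aᵐᵒᵖ) (x : A), (a ⊗ₜ[k] b) • x = a * x * MulOpposite.unop b) →
    ∀ [HasExt.{1} (ModuleCat.{0} (A ⊗[k] Aᵐᵒᵖ))]
      [HasExt.{1} (ModuleCat.{0} ((A ⊗[k] Aᵐᵒᵖ)ᵐᵒᵖ))],
    (Module.Injective A A ↔
      ((∀ m : A, (∀ f : A →ₗ[A ⊗[k] Aᵐᵒᵖ] (A ⊗[k] Aᵐᵒᵖ), f m = 0) → m = 0) ∧
       (∀ φ : (A →ₗ[A ⊗[k] Aᵐᵒᵖ] (A ⊗[k] Aᵐᵒᵖ)) →ₗ[((A ⊗[k] Aᵐᵒᵖ)ᵐᵒᵖ)] (A ⊗[k] Aᵐᵒᵖ),
          ∃ m : A, ∀ f : A →ₗ[A ⊗[k] Aᵐᵒᵖ] (A ⊗[k] Aᵐᵒᵖ), φ f = f m) ∧
       (∀ i : ℕ, 1 ≤ i →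
          Subsingleton (Abelian.Ext.{1} (ModuleCat.of (A ⊗[k] Aᵐᵒᵖ) A)
            (ModuleCat.of (A ⊗[k] Aᵐᵒᵖ) (A ⊗[k] Aᵐᵒᵖ)) i)) ∧
       (∀ i : ℕ, 1 ≤ i →
          Subsingleton (Abelian.Ext.{1}
            (ModuleCat.of ((A ⊗[k] Aᵐᵒᵖ)ᵐᵒᵖ) (A →ₗ[A ⊗[k] Aᵐᵒᵖ] (A ⊗[k] Aᵐᵒᵖ)))
            (ModuleCat.of ((A ⊗[k] Aᵐᵒᵖ)ᵐᵒᵖ) (A ⊗[k] Aᵐᵒᵖ)) i))))) := by
  intro H
  obtain ⟨hfin, φ, hφ⟩ := hT
  let y : Sy K T := ⟨φ, hφ⟩
  let _ : Module K X := Module.compHom X (algebraMap K T)
  have _ : IsScalarTower K T X := tower_compHom X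
  have _ : Module.Finite K X := Module.Finite.trans T X
  have hfinA : Module.Finite K (Module.End T (T × X)) := by
    let g : Module.End T (T × X) →ₗ[K] ((T × X) →ₗ[K] (T × X)) :=
      { toFun := fun e => e.restrictScalars K
        map_add' := fun _ _ => rfl
        map_smul' := fun _ _ => rfl }
    exact Module.Finite.of_injective g (LinearMap.restrictScalars_injective K)
  have hninj : ¬ Module.Injective (Module.End T (T × X)) (Module.End T (T × X)) := fun hA =>
    hX (projective_of_injective (p₁ := LinearMap.fst T T X) (e := ((1, 0) : T × X)) rfl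
      (LinearMap.inr T T X) (LinearMap.snd T T X) (fun x => rfl) hA)
  have hext : ∀ i : ℕ, 1 ≤ i → Subsingleton (Ext.{0}
      (ModuleCat.of (Module.End T (T × X)) (DA K (Module.End T (T × X))))
      (ModuleCat.of (Module.End T (T × X)) (Module.End T (T × X))) i) := by
    intro i hi
    obtain ⟨k, rfl⟩ : ∃ k, i = k + 1 := ⟨i - 1, by omega⟩
    have hcls : Cls T X (T × X) := by
      refine ⟨inferInstance, fun n => ?_⟩
      have hS := shortExact_of (LinearMap.inl T T X) (LinearMap.snd T T X)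
        LinearMap.inl_injective LinearMap.snd_surjective (fun a => rfl)
        (fun b hb => ⟨b.1, Prod.ext rfl hb.symm⟩)
      have hinj := y.injective_self
      have : Injective (ModuleCat.of T T) := Module.injective_object_of_injective_module T T
      refine co_mid hS (ModuleCat.of T X) (n + 1) ?_ (hE (n + 1) (by omega))
      exact subsingleton_of_forall_eq 0 fun x => Ext.eq_zero_of_injective x
    exact subsingleton_of_iso (isoDA K T (T × X)).toModuleIso (k + 1) (ext_G y k (T × X) hcls)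
  let N : Nu K (Module.End T (T × X)) := nuEnd y
  let inst : Module (Module.End T (T × X) ⊗[K] (Module.End T (T × X))ᵐᵒᵖ)
      (Module.End T (T × X)) := TensorProduct.Algebra.module
  have hA : ∀ (a : Module.End T (T × X)) (b : (Module.End T (T × X))ᵐᵒᵖ)
      (x : Module.End T (T × X)), (a ⊗ₜ[K] b) • x = a * x * MulOpposite.unop b := by
    intro a b x
    change a • (b • x) = a * x * unop b
    rw [smul_eq_mul, MulOpposite.smul_eq_mul_unop, mul_assoc]
  let i1 : HasExt.{1} (ModuleCat.{0} (Module.End T (T × X) ⊗[K] (Module.End T (T × X))ᵐᵒᵖ)) :=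
    HasExt.standard _
  let i2 : HasExt.{1} (ModuleCat.{0} (Module.End T (T × X) ⊗[K] (Module.End T (T × X))ᵐᵒᵖ)ᵐᵒᵖ) :=
    HasExt.standard _
  refine hninj ((H K (Module.End T (T × X)) hA).2 ⟨?_, ?_, ?_, ?_⟩)
  · exact torsionless hA N
  · exact reflexive hA N
  · exact fun i hi => ext_regular hA hext i hi
  · exact fun i hi => ext_dual hA N hext i hi

end

end Pool.Agent.H121.NK
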