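import Pool.Agent.H121.NK.Exact

/-!
# `Ext` over the enveloping algebra

If `Y` is a bimodule, projective on the left, and `Ext^i_A(D A, G(Y)) = 0` for all `i ≥ 1`, then
`Ext^i(Y, A ⊗ A) = 0` over the enveloping algebra for all `i ≥ 1`.
-/

set_option autoImplicit false
set_option linter.unusedSectionVars false
set_option linter.unusedVariables false
set_option linter.unusedSimpArgs false

open scoped TensorProduct
open MulOpposite CategoryTheory CategoryTheory.Abelian
open Pool.Agent.H379.GS

namespace Pool.Agent.H121.NK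

universe u w w'

noncomputable section

variable {K : Type u} [Field K] {A : Type u} [Ring A] [Algebra K A]

/-- a section on the left modules -/
theorem exists_section {P Y : Type u} [AddCommGroup P] [Module (Ae K A) P] [AddCommGroup Y]
    [Module (Ae K A) Y] (p : P →ₗ[Ae K A] Y) (hp : Function.Surjective p)
    [Module.Projective A (Lf K A Y)] :
    ∃ s : Lf K A Y →ₗ[A] Lf K A P, ∀ y, p (s y).v = y.v := by
  obtain ⟨s, hs⟩ := Module.projective_lifting_property (Lf.map p) (LinearMap.id (M := Lf K A Y))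
    (fun y => by
      obtain ⟨x, hx⟩ := hp y.v
      exact ⟨Lf.mk K A x, hx⟩)
  exact ⟨s, fun y => LinearMap.congr_fun hs y⟩

/-- the condition for the induction -/
def Good (K : Type u) [Field K] (A : Type u) [Ring A] [Algebra K A]
    [HasExt.{w} (ModuleCat.{u} A)] (Y : Type u) [AddCommGroup Y] [Module (Ae K A) Y] : Prop :=
  Module.Projective A (Lf K A Y) ∧ ∀ i : ℕ,
    Subsingleton (Ext.{w} (ModuleCat.of A (DA K A)) (ModuleCat.of A (G K A Y)) (i + 1))

theorem Good.ker [HasExt.{w} (ModuleCat.{u} A)] {Y : Type u} [AddCommGroup Y]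
    [Module (Ae K A) Y] (h : Good.{u, w} K A Y) {P : Type u} [AddCommGroup P]
    [Module (Ae K A) P] (h2 : Module.Projective A (Lf K A P)) (h3 : Module.Injective A (G K A P))
    (p : P →ₗ[Ae K A] Y) (hp : Function.Surjective p) : Good.{u, w} K A (LinearMap.ker p) := by
  have h1 := h.1
  obtain ⟨s, hs⟩ := exists_section p hp
  refine ⟨ker_projective p s hs, fun i => ?_⟩
  have h4 : Injective (ModuleCat.of A (G K A P)) :=
    Module.injective_object_of_injective_module A (G K A P)
  exact ext_of_injective (gComplex_shortExact p s hs) h4 (ModuleCat.of A (DA K A)) i (h.2 (i + 1))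

variable (K A) in
/-- free bimodules -/
def Fr (ι : Type u) : Type u := ι →₀ Ae K A

instance (ι : Type u) : AddCommGroup (Fr K A ι) := inferInstanceAs (AddCommGroup (ι →₀ Ae K A))
instance (ι : Type u) : Module (Ae K A) (Fr K A ι) :=
  inferInstanceAs (Module (Ae K A) (ι →₀ Ae K A))

theorem fr_projective (ι : Type u) : Module.Projective (Ae K A) (Fr K A ι) :=
  inferInstanceAs (Module.Projective (Ae K A) (ι →₀ Ae K A))

/-- every bimodule is a quotient of a free one -/
theorem exists_fr (Y : Type u) [AddCommGroup Y] [Module (Ae K A) Y] :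
    ∃ p : Fr K A Y →ₗ[Ae K A] Y, Function.Surjective p :=
  ⟨Finsupp.linearCombination (Ae K A) (id : Y → Y),
    Finsupp.linearCombination_id_surjective (Ae K A) Y⟩

variable [Module.Finite K A]

theorem Good.ext [HasExt.{w} (ModuleCat.{u} A)] [HasExt.{w'} (ModuleCat.{u} (Ae K A))] (n : ℕ) :
    ∀ (Y : Type u) [AddCommGroup Y] [Module (Ae K A) Y], Good.{u, w} K A Y →
      Subsingleton (Ext.{w'} (ModuleCat.of (Ae K A) Y) (ModuleCat.of (Ae K A) (Ae K A)) (n + 1)) := by
  induction n with
  | zero =>
    intro Y _ _ h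
    obtain ⟨p, hp⟩ := exists_fr (K := K) (A := A) Y
    have hS := LinearMap.shortExact_shortComplexKer hp
    refine ext_one_of_extend hS ?_ _ ?_
    · exact ((IsProjective.iff_projective (R := Ae K A) (Fr K A Y)).1 (fr_projective Y))
    intro f
    have h1 := h.1
    obtain ⟨s, hs⟩ := exists_section p hp
    obtain ⟨g, hg⟩ := lift_of_ext_one (gComplex_shortExact p s hs) (ModuleCat.of A (DA K A))
      (h.2 0) (ModuleCat.ofHom (toG f.hom))
    refine ⟨ModuleCat.ofHom (ofG g.hom), ModuleCat.hom_ext (LinearMap.ext fun y => ?_)⟩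
    refine sl_ext fun ξ => ?_
    change sl ξ (ofG g.hom (y : Fr K A Y)) = sl ξ (f.hom y)
    rw [sl_ofG]
    have h2 := congrArg (fun e => (G.ev (e.hom ξ)) (Lf.mk K A y)) hg
    exact h2
  | succ n ih =>
    intro Y _ _ h
    obtain ⟨p, hp⟩ := exists_fr (K := K) (A := A) Y
    have hS := LinearMap.shortExact_shortComplexKer hp
    refine ext_succ_of_projective hS ?_ _ n
      (ih (LinearMap.ker p) (h.ker (lf_free Y) (g_free_injective Y) p hp))
    exact ((IsProjective.iff_projective (R := Ae K A) (Fr K A Y)).1 (fr_projective Y))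

section regular

variable [Module (Ae K A) A]
  (hA : ∀ (a : A) (b : Aᵐᵒᵖ) (x : A), (a ⊗ₜ[K] b : Ae K A) • x = a * x * unop b)

/-- the regular bimodule as a left module -/
def lfA : Lf K A A ≃ₗ[A] A where
  toFun y := y.v
  invFun y := Lf.mk K A y
  map_add' x y := rfl
  map_smul' a y := by
    rw [Lf.v_smul, hA]
    simp
  left_inv y := rfl
  right_inv y := rfl

/-- `G(A) = A` -/
def gA : G K A A ≃ₗ[A] A where
  toFun g := g.ev (Lf.mk K A 1)
  invFun b := G.mk K A
    { toFun := fun y => y.v * b
      map_add' := fun x y => by rw [Lf.v_add, add_mul]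
      map_smul' := fun a y => by
        rw [Lf.v_smul, hA]
        simp [mul_assoc] }
  map_add' g h := rfl
  map_smul' a g := by
    rw [G.smul_ev, RingHom.id_apply, smul_eq_mul, ← G.ev_lt]
    congr 2
    rw [Lf.v_mk, hA, hA]
    simp
  left_inv g := G.ext fun y => by
    change y.v * g.ev (Lf.mk K A 1) = g.ev y
    rw [← G.ev_lt]
    congr 1
    change lt K A y.v • (1 : A) = y.v
    rw [hA]
    simp
  right_inv b := by
    change (1 : A) * b = b
    exact one_mul b

include hA in
theorem good_regular [HasExt.{w} (ModuleCat.{u} A)]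
    (h : ∀ i : ℕ, 1 ≤ i →
      Subsingleton (Ext.{w} (ModuleCat.of A (DA K A)) (ModuleCat.of A A) i)) :
    Good.{u, w} K A A := by
  refine ⟨Module.Projective.of_equiv (lfA hA).symm, fun i => ?_⟩
  exact ext_iso_right (gA hA).symm.toModuleIso (i + 1) (h (i + 1) (by omega))

include hA in
/-- `Ext^i_{A^e}(A, A^e) = 0` if `Ext^i_A(D A, A) = 0` -/
theorem ext_regular [HasExt.{w} (ModuleCat.{u} A)] [HasExt.{w'} (ModuleCat.{u} (Ae K A))]
    (h : ∀ i : ℕ, 1 ≤ i →
      Subsingleton (Ext.{w} (ModuleCat.of A (DA K A)) (ModuleCat.of A A) i))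
    (i : ℕ) (hi : 1 ≤ i) :
    Subsingleton (Ext.{w'} (ModuleCat.of (Ae K A) A) (ModuleCat.of (Ae K A) (Ae K A)) i) := by
  obtain ⟨n, rfl⟩ : ∃ n, i = n + 1 := ⟨i - 1, by omega⟩
  exact Good.ext n A (good_regular hA h)

end regular

end

end Pool.Agent.H121.NK
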