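import Pool.Agent.H121.NK.Struct

/-!
# `A` is totally reflexive as a bimodule
-/

set_option autoImplicit false
set_option linter.unusedSectionVars false
set_option linter.unusedVariables false
set_option linter.unusedSimpArgs false

open scoped TensorProduct
open MulOpposite CategoryTheory CategoryTheory.Abelian
open Pool.Agent.H379.GS

namespace Pool.Agent.H121.NK

universe u w w' w''

noncomputable section

/-- `Ext` over isomorphic rings -/
theorem ext_ringEquiv {R S : Type u} [Ring R] [Ring S] (e : R ≃+* S)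
    [HasExt.{w} (ModuleCat.{u} R)] [HasExt.{w'} (ModuleCat.{u} S)] (X Y : ModuleCat.{u} S) (i : ℕ)
    (h : Subsingleton (Ext.{w} ((ModuleCat.restrictScalars e.toRingHom).obj X)
      ((ModuleCat.restrictScalars e.toRingHom).obj Y) i)) : Subsingleton (Ext.{w'} X Y i) := by
  let F := ModuleCat.restrictScalars.{u} e.toRingHom
  have hF : F.IsEquivalence := ModuleCat.restrictScalars_isEquivalence_of_ringEquiv e
  have hadd : F.Additive := inferInstance
  exact (F.mapExt_bijective_of_preservesProjectiveObjects X Y i).1.subsingleton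

variable {K : Type u} [Field K] {A : Type u} [Ring A] [Algebra K A]
variable [Module.Finite K A] [Module (Ae K A) A]
  (hA : ∀ (a : A) (b : Aᵐᵒᵖ) (x : A), (a ⊗ₜ[K] b : Ae K A) • x = a * x * unop b)
  (N : Nu K A)

include hA N in
theorem torsionless (m : A) (h : ∀ f : A →ₗ[Ae K A] Ae K A, f m = 0) : m = 0 := by
  refine N.left_zero m fun ξ => ?_
  have h1 := congrArg (sl ξ) (h (fa hA N 1))
  rw [sl_fa, map_zero, mul_one] at h1
  exact h1

/-- the map `x ↦ sw (f_x m)` -/
def gm (m : A) : A →ₗ[Ae K A] Ae K A where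
  toFun x := sw (fa hA N x m)
  map_add' x y := by rw [fa_add, LinearMap.add_apply, map_add]
  map_smul' r x := by
    rw [fa_smul, RingHom.id_apply]
    change sw (fa hA N x m * sw r) = r * _
    rw [sw_mul, sw_sw]

theorem gm_apply (m x : A) : gm hA N m x = sw (fa hA N x m) := rfl

theorem fa_ksmul (c : K) (a x : A) : fa hA N a (c • x) = c • fa hA N a x :=
  sl_ext fun ξ => by
    rw [(sl ξ).map_smul, sl_fa, sl_fa, smul_mul_assoc]

theorem fa_ksmul' (c : K) (a x : A) : fa hA N (c • a) x = c • fa hA N a x :=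
  sl_ext fun ξ => by
    rw [(sl ξ).map_smul, sl_fa, sl_fa, mul_smul_comm, mul_smul_comm]

/-- the element `θ m` with `fa (θ m) = gm m` -/
def th (m : A) : A := (fa_surj hA N (gm hA N m)).choose

theorem th_spec (m : A) : fa hA N (th hA N m) = gm hA N m :=
  (fa_surj hA N (gm hA N m)).choose_spec

/-- `θ` as a linear map -/
def thL : A →ₗ[K] A where
  toFun m := th hA N m
  map_add' m m' := fa_inj hA N <| by
    rw [fa_add, th_spec, th_spec, th_spec]
    refine LinearMap.ext fun x => ?_
    rw [LinearMap.add_apply, gm_apply, gm_apply, gm_apply, map_add, map_add]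
  map_smul' c m := fa_inj hA N <| by
    rw [th_spec, RingHom.id_apply]
    refine LinearMap.ext fun x => ?_
    rw [fa_ksmul', th_spec, gm_apply, gm_apply, fa_ksmul, map_smul]

theorem thL_inj : Function.Injective (thL hA N) := by
  rw [← LinearMap.ker_eq_bot, LinearMap.ker_eq_bot']
  intro m hm
  refine torsionless hA N m fun f => ?_
  obtain ⟨a, rfl⟩ := fa_surj hA N f
  have h1 : gm hA N m = fa hA N 0 := by
    rw [← th_spec]
    exact congrArg _ hm
  have h2 : fa hA N (0 : A) a = 0 := sl_ext fun ξ => by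
    rw [sl_fa, mul_zero, mul_zero, map_zero]
  have h3 := LinearMap.congr_fun h1 a
  rw [h2, gm_apply] at h3
  apply sw_inj
  rw [h3, map_zero]

include hA N in
theorem reflexive (φ : (A →ₗ[Ae K A] Ae K A) →ₗ[(Ae K A)ᵐᵒᵖ] Ae K A) :
    ∃ m : A, ∀ f : A →ₗ[Ae K A] Ae K A, φ f = f m := by
  let g : A →ₗ[Ae K A] Ae K A :=
    { toFun := fun x => sw (φ (fa hA N x))
      map_add' := fun x y => by rw [fa_add, map_add, map_add]
      map_smul' := fun r x => by
        rw [fa_smul, map_smul, RingHom.id_apply]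
        change sw (φ (fa hA N x) * sw r) = r * _
        rw [sw_mul, sw_sw] }
  obtain ⟨a, ha⟩ := fa_surj hA N g
  obtain ⟨m, hm⟩ := (LinearMap.injective_iff_surjective (f := thL hA N)).1 (thL_inj hA N) a
  refine ⟨m, fun f => ?_⟩
  obtain ⟨x, rfl⟩ := fa_surj hA N f
  have h1 : gm hA N m = g := by
    rw [← ha, ← hm]
    exact (th_spec hA N m).symm
  have h2 := LinearMap.congr_fun h1 x
  rw [gm_apply] at h2
  exact (sw_inj h2).symm

/-- `A` is isomorphic to the restriction of its dual -/
def isoDual : ModuleCat.of (Ae K A) A ≅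
    (ModuleCat.restrictScalars (sg K A).toRingHom).obj
      (ModuleCat.of (Ae K A)ᵐᵒᵖ (A →ₗ[Ae K A] Ae K A)) :=
  LinearEquiv.toModuleIso
    (LinearEquiv.ofBijective
      (M₂ := (ModuleCat.restrictScalars (sg K A).toRingHom).obj
        (ModuleCat.of (Ae K A)ᵐᵒᵖ (A →ₗ[Ae K A] Ae K A)))
      { toFun := fun a => fa hA N a
        map_add' := fun a b => fa_add hA N a b
        map_smul' := fun r a => fa_smul hA N r a }
      ⟨fun a b h => fa_inj hA N h, fun f => fa_surj hA N f⟩)

/-- the regular module -/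
def isoReg : ModuleCat.of (Ae K A) (Ae K A) ≅
    (ModuleCat.restrictScalars (sg K A).toRingHom).obj
      (ModuleCat.of (Ae K A)ᵐᵒᵖ (Ae K A)) :=
  LinearEquiv.toModuleIso
    (LinearEquiv.ofBijective
      (M₂ := (ModuleCat.restrictScalars (sg K A).toRingHom).obj
        (ModuleCat.of (Ae K A)ᵐᵒᵖ (Ae K A)))
      { toFun := fun a => (sw a : Ae K A)
        map_add' := fun a b => map_add sw a b
        map_smul' := fun r a => sw_mul r a }
      ⟨fun a b h => sw_inj h, fun f => ⟨sw f, sw_sw f⟩⟩)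

include hA N in
theorem ext_dual [HasExt.{w} (ModuleCat.{u} A)] [HasExt.{w'} (ModuleCat.{u} (Ae K A))]
    [HasExt.{w''} (ModuleCat.{u} (Ae K A)ᵐᵒᵖ)]
    (h : ∀ i : ℕ, 1 ≤ i →
      Subsingleton (Ext.{w} (ModuleCat.of A (DA K A)) (ModuleCat.of A A) i))
    (i : ℕ) (hi : 1 ≤ i) :
    Subsingleton (Ext.{w''} (ModuleCat.of (Ae K A)ᵐᵒᵖ (A →ₗ[Ae K A] Ae K A))
      (ModuleCat.of (Ae K A)ᵐᵒᵖ (Ae K A)) i) := by
  refine ext_ringEquiv.{u, w', w''} (sg K A) _ _ i ?_
  exact ext_iso_right isoReg i (ext_iso_left (isoDual hA N) i (ext_regular.{u, w, w'} hA h i hi))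

end

end Pool.Agent.H121.NK
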