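import Pool.Agent.H121.NK.Main1

/-!
# Bimodule duality for algebras with a good map `D A → A`
-/

set_option autoImplicit false
set_option linter.unusedSectionVars false
set_option linter.unusedVariables false
set_option linter.unusedSimpArgs false

open scoped TensorProduct
open MulOpposite CategoryTheory CategoryTheory.Abelian
open Pool.Agent.H379.GS

namespace Pool.Agent.H121.NK

universe u w w'

noncomputable section

variable {K : Type u} [Field K] {A : Type u} [Ring A] [Algebra K A]

/-- the flip `a ⊗ b ↦ b ⊗ a` -/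
def sw : Ae K A →ₗ[K] Ae K A :=
  TensorProduct.map (MulOpposite.opLinearEquiv K).symm.toLinearMap
    (MulOpposite.opLinearEquiv K).toLinearMap ∘ₗ (TensorProduct.comm K A Aᵐᵒᵖ).toLinearMap

@[simp] theorem sw_tmul (a : A) (b : Aᵐᵒᵖ) :
    sw (a ⊗ₜ[K] b : Ae K A) = (unop b ⊗ₜ[K] op a : Ae K A) := by
  simp [sw]

@[simp] theorem sw_sw (z : Ae K A) : sw (sw z) = z := by
  induction z using TensorProduct.induction_on with
  | zero => simp
  | tmul a b => simp
  | add x y hx hy => rw [map_add, map_add, hx, hy]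

theorem sw_inj {z z' : Ae K A} (h : sw z = sw z') : z = z' := by
  rw [← sw_sw z, h, sw_sw]

theorem sw_mul (z z' : Ae K A) : sw (z * z') = sw z' * sw z := by
  induction z using TensorProduct.induction_on with
  | zero => simp
  | tmul a b =>
    induction z' using TensorProduct.induction_on with
    | zero => simp
    | tmul c d => simp
    | add x y hx hy => rw [mul_add, map_add, map_add, hx, hy, add_mul]
  | add x y hx hy => rw [add_mul, map_add, map_add, hx, hy, mul_add]

variable (K A) in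
/-- the enveloping algebra is isomorphic to its opposite -/
def sg : Ae K A ≃+* (Ae K A)ᵐᵒᵖ where
  toFun z := op (sw z)
  invFun z := sw (unop z)
  left_inv z := by simp
  right_inv z := by simp
  map_mul' z w := by rw [sw_mul, op_mul]
  map_add' z w := by rw [map_add, MulOpposite.op_add]

theorem sg_apply (z : Ae K A) : sg K A z = op (sw z) := rfl

theorem sl_mul_tmul (ξ : DA K A) (z : Ae K A) (b c : A) :
    sl ξ (z * (b ⊗ₜ[K] op c)) = sl (op c • ξ) z * b := by
  induction z using TensorProduct.induction_on with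
  | zero => simp
  | tmul x y => simp
  | add x y hx hy => rw [add_mul, map_add, map_add, hx, hy, add_mul]

/-- the conditions on a map `ν : D A → A` -/
structure Nu (K : Type u) [Field K] (A : Type u) [Ring A] [Algebra K A] where
  /-- the map -/
  ν : DA K A →ₗ[A] A
  right : ∀ (b : A) (ξ : DA K A), ν (op b • ξ) = ν ξ * b
  gen : ∀ h : DA K A →ₗ[A] A, ∃ a : A, ∀ ξ, h ξ = ν ξ * a
  left_zero : ∀ a : A, (∀ ξ, a * ν ξ = 0) → a = 0
  right_zero : ∀ a : A, (∀ ξ, ν ξ * a = 0) → a = 0

variable [Module.Finite K A] [Module (Ae K A) A]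
  (hA : ∀ (a : A) (b : Aᵐᵒᵖ) (x : A), (a ⊗ₜ[K] b : Ae K A) • x = a * x * unop b)
  (N : Nu K A)

/-- the bimodule map `x ↦ x z_a` -/
def fa (a : A) : A →ₗ[Ae K A] Ae K A :=
  ofG ((gA hA).symm.toLinearMap ∘ₗ (LinearMap.toSpanSingleton A A a) ∘ₗ N.ν)

theorem sl_fa (a : A) (ξ : DA K A) (x : A) : sl ξ (fa hA N a x) = x * (N.ν ξ * a) := by
  rw [fa, sl_ofG]
  rfl

theorem fa_surj (f : A →ₗ[Ae K A] Ae K A) : ∃ a, fa hA N a = f := by
  obtain ⟨a, ha⟩ := N.gen ((gA hA).toLinearMap ∘ₗ toG f)
  refine ⟨a, LinearMap.ext fun x => sl_ext fun ξ => ?_⟩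
  rw [sl_fa, ← ha]
  change x * ((toG f ξ).ev (Lf.mk K A 1)) = _
  rw [← G.ev_lt, toG_ev, Lf.v_mk]
  congr 2
  rw [hA]
  simp

theorem fa_inj {a a' : A} (h : fa hA N a = fa hA N a') : a = a' := by
  rw [← sub_eq_zero]
  refine N.right_zero _ fun ξ => ?_
  have h1 := congrArg (fun f : A →ₗ[Ae K A] Ae K A => sl ξ (f 1)) h
  simp only [sl_fa, one_mul] at h1
  rw [mul_sub, h1, sub_self]

theorem fa_add (a a' : A) : fa hA N (a + a') = fa hA N a + fa hA N a' :=
  LinearMap.ext fun x => sl_ext fun ξ => by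
    rw [LinearMap.add_apply, map_add, sl_fa, sl_fa, sl_fa, mul_add, mul_add]

theorem fa_smul (r : Ae K A) (a : A) : fa hA N (r • a) = sg K A r • fa hA N a := by
  induction r using TensorProduct.induction_on with
  | zero =>
    have h1 : (0 : Ae K A) • a = 0 := zero_smul (Ae K A) a
    have h2 : fa hA N 0 = 0 := LinearMap.ext fun x => sl_ext fun ξ => by
      rw [sl_fa, mul_zero, mul_zero, LinearMap.zero_apply, map_zero]
    have h3 : sg K A (0 : Ae K A) = 0 := (sg K A).map_zero
    rw [h1, h2, h3]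
    exact (zero_smul (Ae K A)ᵐᵒᵖ (fa hA N a)).symm
  | tmul c b =>
    rw [hA, sg_apply, sw_tmul]
    refine LinearMap.ext fun x => sl_ext fun ξ => ?_
    change _ = sl ξ (fa hA N a x * (unop b ⊗ₜ[K] op c))
    rw [sl_mul_tmul, sl_fa, sl_fa, N.right]
    simp only [mul_assoc]
  | add x y hx hy => rw [add_smul, fa_add, hx, hy, map_add, add_smul]

end

end Pool.Agent.H121.NK
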